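import Pool.Agent.P.MP_6b977f_mp.GB.Main

/-! The random wave property at full density, for a Haar random eigenbasis, on regular graphs
of large girth with a cocompact group of automorphisms. -/

namespace Pool.Agent.Results.MP_6b977f_mp.GraphBerry

open Matrix MeasureTheory Pool.Agent.GraphBerry

theorem result (d r R : ℕ) (hd : 3 ≤ d) (ε : ℝ) (hε : 0 < ε) :
    ∃ g : ℕ, ∀ (V : Type) [Fintype V] [DecidableEq V] (X : SimpleGraph V) [DecidableRel X.Adj]
      (G : Type) [Group G] [Fintype G] [MulAction G V],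
      (∀ (s : G) (x y : V), X.Adj x y → X.Adj (s • x) (s • y)) →
      (∀ u v : V, ∃ s : G, X.edist (s • u) v ≤ r) →
      X.IsRegularOfDegree d → (g : ℕ∞) ≤ X.egirth →
      ∀ (b : V → V → ℝ) (lam : V → ℝ),
        (∀ i j, ∑ x, b i x * b j x = if i = j then (Fintype.card V : ℝ) else 0) →
        (∀ i, X.adjMatrix ℝ *ᵥ b i = lam i • b i) →
        ∀ [MeasurableSpace (block lam)] [BorelSpace (block lam)] (m : Measure (block lam))
          [IsProbabilityMeasure m] [m.IsMulLeftInvariant],
          m {O | ε * Fintype.card V < ({i | ¬ Wave X G d R ε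
            (fun x => ∑ j, O.1.1 i j * b j x) (lam i)}.ncard : ℝ)} ≤ ENNReal.ofReal ε :=
  main d r R hd ε hε

end Pool.Agent.Results.MP_6b977f_mp.GraphBerry
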