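import Pool.Agent.P.MP_6b977f_mp.RG.All

/-! Every bulk eigenvector of a random regular graph looks like the Gaussian wave on stars. -/

namespace Pool.Agent.Results.MP_6b977f_mp.RegularBerry

open Finset Pool.Agent.P.MP_6b977f_mp.RG
open scoped Classical

theorem result (d : ℕ) (κ R ε : ℝ) (hd : 3 ≤ d) (hκ : 0 < κ) (hε : 0 < ε) :
    ∃ N0 : ℕ, ∀ N : ℕ, N0 ≤ N →
      (#((Reg d N).filter fun G => ¬ Berry d κ R ε G) : ℝ) ≤ ε * #(Reg d N) :=
  a_MAIN d κ R ε hd hκ hε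

end Pool.Agent.Results.MP_6b977f_mp.RegularBerry
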