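import Pool.Agent.P.MP_6b977f_mp.QO3

namespace Pool.Agent.Results.MP_6b977f_mp.ThirdMoment

open Pool.Agent.P.MP_6b977f_mp MeasureTheory Filter Topology

/-- For every Dirichlet eigenbasis of an ergodic planar billiard there is a subsequence of full
density along which every three-point function at wavelength scale tends to the Gaussian
value `0`. -/
theorem result (Ω : Set E) (hΩ : IsOpen Ω) (hb : Bornology.IsBounded Ω) (hn : Ω.Nonempty)
    (he : ErgodicBilliard Ω) (u : ℕ → E → ℝ) (lam : ℕ → ℝ) (hu : DirichletBasis Ω u lam) :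
    ∃ s, FullDensity s ∧ ∀ a, IsTest Ω a → ∀ v : Fin 3 → E,
      Tendsto (corr (fun j => u (s j)) (fun j => lam (s j)) a v) atTop (𝓝 0) := by
  obtain ⟨s, hs, h⟩ := qe_data hΩ hb hn he hu
  exact ⟨s, hs, fun _ ha v => (h id tendsto_id).three ha v⟩

end Pool.Agent.Results.MP_6b977f_mp.ThirdMoment
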